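import Pool.Agent.Lib.H31S.C7
import Pool.Agent.Lib.H24A.B
import Pool.Agent.Lib.H57G5.E
import Pool.Agent.Lib.H63B.B
import Pool.Agent.Lib.LD77.B

/-!
# H8Y, file Cov: the subtour predicate as a covering predicate (MP_33911d)
-/

set_option autoImplicit false
set_option linter.unusedSectionVars false

namespace H8Y

open Finset H98M LD H85TF H31S

variable {V : Type*} [Fintype V] [DecidableEq V]

theorem pi_sub {G : Finset (Sym2 V)} {A B : Finset V} (h : A ⊆ B) (hB : Pi G B) : Pi G A := by
  obtain ⟨x, h1, h2, h3⟩ := hB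
  refine ⟨x, h1, h2, fun S hS => h3 S ?_⟩
  obtain ⟨⟨a, ha, ha'⟩, ⟨b, hb, hb'⟩⟩ := hS
  exact ⟨⟨a, h ha, ha'⟩, ⟨b, h hb, hb'⟩⟩

theorem pi_mono {G G' : Finset (Sym2 V)} {A : Finset V} (h : G ⊆ G') (hA : Pi G A) : Pi G' A := by
  obtain ⟨x, h1, h2, h3⟩ := hA
  exact ⟨x, ⟨h1.symm, h1.nn, fun u v huv => h1.supp u v fun h' => huv (h h')⟩, h2, h3⟩

/-- The weights of a set of edges. -/
noncomputable def ind (F : Finset (Sym2 V)) (u v : V) : ℝ := if s(u, v) ∈ F then 1 else 0

theorem card_nb (F : Finset (Sym2 V)) (hF : ∀ e ∈ F, ¬ e.IsDiag) (v : V) :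
    (univ.filter fun w => s(v, w) ∈ F).card = dg F v := by
  unfold dg
  have h1 : F.filter (fun e => v ∈ e) = (univ.filter fun w => s(v, w) ∈ F).image fun w => s(v, w) := by
    ext e
    simp only [mem_filter, mem_image, mem_univ, true_and]
    constructor
    · rintro ⟨he, hv⟩
      obtain ⟨w, rfl⟩ := Sym2.mem_iff_exists.1 hv
      exact ⟨w, he, rfl⟩
    · rintro ⟨w, hw, rfl⟩
      exact ⟨hw, by simp⟩
  rw [h1, card_image_of_injOn]
  intro a _ b _ hab
  have h2 : s(v, a) = s(v, b) := hab
  rw [Sym2.eq_iff] at h2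
  rcases h2 with h2 | h2
  · exact h2.2
  · exact h2.2.trans h2.1

theorem ind_wt {G F : Finset (Sym2 V)} (h : F ⊆ G) : Wt G (ind F) where
  symm u v := by
    unfold ind
    rw [Sym2.eq_swap]
  nn u v := by
    unfold ind
    split <;> norm_num
  supp u v huv := by
    unfold ind
    rw [if_neg fun h' => huv (h h')]

theorem deg_ind (F : Finset (Sym2 V)) (hF : ∀ e ∈ F, ¬ e.IsDiag) (v : V) : deg (ind F) v = dg F v := by
  unfold deg ind
  rw [← card_nb F hF v, card_filter]
  push_cast
  rfl

/-- The number of edges of a cycle in a cut is even. -/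
theorem cut_ind {F : Finset (Sym2 V)} (hF : ∀ e ∈ F, ¬ e.IsDiag) (hd : ∀ v, dg F v = 0 ∨ dg F v = 2)
    (S : Finset V) (h : ∃ u ∈ S, ∃ v, v ∉ S ∧ s(u, v) ∈ F) : 2 ≤ cut (ind F) S := by
  obtain ⟨c, hc⟩ : ∃ c : ℕ, c = ∑ u ∈ S, ∑ v ∈ Sᶜ, if s(u, v) ∈ F then 1 else 0 := ⟨_, rfl⟩
  have h1 : cut (ind F) S = c := by
    rw [hc]
    unfold cut ind
    push_cast
    rfl
  have h2 : (c : ZMod 2) = 0 := by
    have e1 : ∑ u ∈ S, ∑ v : V, (if s(u, v) ∈ F then (1 : ZMod 2) else 0) = 0 := by
      refine sum_eq_zero fun u _ => ?_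
      rw [← sum_filter, sum_const, card_nb F hF u]
      rcases hd u with h | h <;> rw [h]
      · simp
      · rfl
    have e2 : ∑ u ∈ S, ∑ v ∈ S, (if s(u, v) ∈ F then (1 : ZMod 2) else 0) = 0 := by
      rw [← sum_product']
      refine sum_involution (fun p _ => (p.2, p.1)) ?_ ?_ ?_ ?_
      · rintro ⟨u, v⟩ _
        simp only
        rw [Sym2.eq_swap (a := v)]
        exact CharTwo.add_self_eq_zero _
      · rintro ⟨u, v⟩ _ h3 h4
        simp only [Prod.mk.injEq] at h4
        simp only [ne_eq, ite_eq_right_iff, one_ne_zero, imp_false, not_not] at h3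
        exact hF _ h3 (by simp [h4.1])
      · rintro ⟨u, v⟩ h3
        rw [mem_product] at h3 ⊢
        exact ⟨h3.2, h3.1⟩
      · rintro ⟨u, v⟩ _
        rfl
    have e3 : ∀ u : V, ∑ v : V, (if s(u, v) ∈ F then (1 : ZMod 2) else 0) =
        ∑ v ∈ S, (if s(u, v) ∈ F then (1 : ZMod 2) else 0) + ∑ v ∈ Sᶜ, (if s(u, v) ∈ F then (1 : ZMod 2) else 0) :=
      fun u => (sum_add_sum_compl S _).symm
    simp only [e3, sum_add_distrib] at e1
    rw [e2, zero_add] at e1
    rw [hc]
    push_cast
    exact e1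
  have h3 : 1 ≤ c := by
    obtain ⟨u, hu, v, hv, huv⟩ := h
    rw [hc]
    calc 1 = (if s(u, v) ∈ F then 1 else 0) := by rw [if_pos huv]
      _ ≤ ∑ v ∈ Sᶜ, (if s(u, v) ∈ F then 1 else 0) :=
        single_le_sum (f := fun v => if s(u, v) ∈ F then 1 else 0) (fun _ _ => Nat.zero_le _) (mem_compl.2 hv)
      _ ≤ ∑ u ∈ S, ∑ v ∈ Sᶜ, (if s(u, v) ∈ F then 1 else 0) :=
        single_le_sum (f := fun u => ∑ v ∈ Sᶜ, if s(u, v) ∈ F then 1 else 0) (fun _ _ => Nat.zero_le _) hu
  have h4 : 2 ∣ c := (ZMod.natCast_eq_zero_iff c 2).1 h2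
  rw [h1]
  have h5 : 2 ≤ c := by omega
  exact_mod_cast h5

/-- A set on one cycle. -/
theorem pi_of_one {G : Finset (Sym2 V)} (hG : ∀ e ∈ G, ¬ e.IsDiag) {A : Finset V} (h : H47G5.OneCyc G A) :
    Pi G A := by
  obtain ⟨F, hF, ⟨hd, hcl⟩, hA⟩ := h
  have hFd : ∀ e ∈ F, ¬ e.IsDiag := fun e he => hG e (hF he)
  refine ⟨ind F, ind_wt hF, fun v => ?_, fun S hS => cut_ind hFd hd S ?_⟩
  · rw [deg_ind F hFd]
    rcases hd v with h | h <;> rw [h] <;> norm_num
  · obtain ⟨⟨a, ha, haS⟩, ⟨b, hb, hbS⟩⟩ := hS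
    by_contra hcon
    push Not at hcon
    exact hbS (hcl S (fun u hu v huv => by
      by_contra hv
      exact hcon u hu v hv huv) a haS (by rw [hA a ha]; norm_num) b (by rw [hA b hb]; norm_num))

theorem pi_two {V : Type} [Fintype V] [DecidableEq V] {G : Finset (Sym2 V)} {Y A : Finset V} (hT : TCY G Y)
    (hAY : A ⊆ Y) (h2 : A.card ≤ 2) : Pi G A := by
  obtain ⟨T, hT1, hT2, hT3⟩ := exists_subsuperset_card_eq (n := 2) hAY h2 (by have := hT.three; omega)
  obtain ⟨a, b, hab, rfl⟩ := card_eq_two.1 hT3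
  exact pi_sub hT1 (pi_of_one hT.loop (H24A.oneCyc_two hT (hT2 (by simp)) (hT2 (by simp))))

theorem pi_cyc {G : Finset (Sym2 V)} {Y : Finset V} (hT : TCY G Y) (h : ∀ v ∈ Y, dg G v = 2) : Pi G Y :=
  pi_of_one hT.loop (H57G5.oneCyc_of_deg2 hT h)

theorem cut_insert {G : Finset (Sym2 V)} {x : V → V → ℝ} (hx : Wt G x) {S : Finset V} {s t : V} (ht : t ∉ S)
    (hs : s ∈ S) : cut x (insert t S) + 2 * x t s ≤ cut x S + deg x t := by
  have e1 : cut x (insert t S) = ∑ v ∈ Sᶜ.erase t, x t v + ∑ u ∈ S, ∑ v ∈ Sᶜ.erase t, x u v := by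
    unfold cut
    rw [sum_insert ht, compl_insert]
  have ht' : t ∈ Sᶜ := mem_compl.2 ht
  have e2 : ∀ u, ∑ v ∈ Sᶜ.erase t, x u v = ∑ v ∈ Sᶜ, x u v - x u t := fun u => by
    rw [← add_sum_erase _ _ ht']
    ring
  have e3 : deg x t = ∑ v ∈ S, x t v + ∑ v ∈ Sᶜ, x t v := (sum_add_sum_compl S _).symm
  have e4 : ∑ u ∈ S, x u t = ∑ u ∈ S, x t u := sum_congr rfl fun u _ => hx.symm u t
  have e5 : x t s ≤ ∑ u ∈ S, x t u := single_le_sum (fun u _ => hx.nn t u) hs
  have h0 := hx.nn t t
  rw [e1]
  simp only [e2, sum_sub_distrib]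
  rw [e4, e3]
  have e6 : cut x S = ∑ u ∈ S, ∑ v ∈ Sᶜ, x u v := rfl
  rw [← e6]
  linarith

theorem cut_add (x y : V → V → ℝ) (c : ℝ) (S : Finset V) :
    cut (fun u v => x u v + c * y u v) S = cut x S + c * cut y S := by
  have := cut_comb 1 c x y S
  simpa using this

theorem deg_add (x y : V → V → ℝ) (c : ℝ) (v : V) :
    deg (fun u v => x u v + c * y u v) v = deg x v + c * deg y v := by
  have := deg_comb 1 c x y v
  simpa using this

/-- The weights without the pair `a, b`. -/
noncomputable def del (x : V → V → ℝ) (a b : V) (u v : V) : ℝ := if s(u, v) = s(a, b) then 0 else x u v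

theorem del_le {x : V → V → ℝ} (hn : ∀ u v, 0 ≤ x u v) (a b u v : V) : del x a b u v ≤ x u v := by
  unfold del
  split
  · exact hn u v
  · exact le_refl _

theorem deg_del {x : V → V → ℝ} {a b : V} (hab : a ≠ b) : deg (del x a b) a = deg x a - x a b := by
  unfold deg
  rw [← add_sum_erase _ _ (mem_univ b), ← add_sum_erase univ (x a) (mem_univ b)]
  have h1 : ∑ w ∈ univ.erase b, del x a b a w = ∑ w ∈ univ.erase b, x a w := by
    refine sum_congr rfl fun w hw => ?_
    unfold del
    rw [if_neg]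
    rw [Sym2.eq_iff]
    rintro (h | h)
    · exact ne_of_mem_erase hw h.2
    · exact hab h.1
  rw [h1]
  unfold del
  rw [if_pos rfl]
  ring

theorem deg_del' {x : V → V → ℝ} {a b : V} (hab : a ≠ b) : deg (del x a b) b = deg x b - x b a := by
  have h : del x a b = del x b a := by
    funext u v
    unfold del
    rw [Sym2.eq_swap (a := a)]
  rw [h, deg_del hab.symm]

theorem deg_del_le {x : V → V → ℝ} (hn : ∀ u v, 0 ≤ x u v) (a b v : V) : deg (del x a b) v ≤ deg x v :=
  sum_le_sum fun w _ => del_le hn a b v w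

/-- A cut which does not separate `a` from `b`. -/
theorem cut_del_same {x : V → V → ℝ} {a b : V} {S : Finset V} (h : a ∈ S ↔ b ∈ S) :
    cut (del x a b) S = cut x S := by
  unfold cut
  refine sum_congr rfl fun u hu => sum_congr rfl fun v hv => ?_
  unfold del
  rw [if_neg]
  rw [Sym2.eq_iff]
  rintro (⟨rfl, rfl⟩ | ⟨rfl, rfl⟩)
  · exact (mem_compl.1 hv) (h.1 hu)
  · exact (mem_compl.1 hv) (h.2 hu)

theorem cut_del_sep {x : V → V → ℝ} {a b : V} {S : Finset V} (ha : a ∈ S) (hb : b ∉ S) :
    cut x S - x a b ≤ cut (del x a b) S := by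
  have hb' : b ∈ Sᶜ := mem_compl.2 hb
  have h1 : ∀ u v, x u v - (if s(u, v) = s(a, b) then x u v else 0) = del x a b u v := by
    intro u v
    unfold del
    split <;> ring
  have h2 : cut (del x a b) S = cut x S - ∑ u ∈ S, ∑ v ∈ Sᶜ, (if s(u, v) = s(a, b) then x u v else 0) := by
    unfold cut
    rw [← sum_sub_distrib]
    refine sum_congr rfl fun u _ => ?_
    rw [← sum_sub_distrib]
    exact sum_congr rfl fun v _ => (h1 u v).symm
  have h3 : ∑ u ∈ S, ∑ v ∈ Sᶜ, (if s(u, v) = s(a, b) then x u v else 0) = x a b := by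
    rw [sum_eq_single_of_mem a ha]
    · rw [sum_eq_single_of_mem b hb']
      · rw [if_pos rfl]
      · intro v _ hvb
        rw [if_neg]
        rw [Sym2.eq_iff]
        rintro (h | h)
        · exact hvb h.2
        · exact hb (h.1 ▸ ha)
    · intro u hu hua
      refine sum_eq_zero fun v hv => ?_
      rw [if_neg]
      rw [Sym2.eq_iff]
      rintro (h | h)
      · exact hua h.1
      · exact hb (h.1 ▸ hu)
  rw [h2, h3]

theorem conn_side {V : Type} [Fintype V] [DecidableEq V] {G : Finset (Sym2 V)} {Y P Q : Finset V} {x y : V}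
    (hT : TCY G Y) (hs : LD.Sep G Y x y P Q) : ¬ Disc (insert x (insert y Q)) G := by
  have hT' := LD77.tcy_red hT hs.symm
  have hYP : ∀ v, v ∈ Y \ P ↔ v = x ∨ v = y ∨ v ∈ Q := by
    intro v
    rw [mem_sdiff, ← hs.eq]
    simp only [mem_insert, mem_union]
    constructor
    · rintro ⟨h | h | h | h, h'⟩
      · exact Or.inl h
      · exact Or.inr (Or.inl h)
      · exact absurd h h'
      · exact Or.inr (Or.inr h)
    · rintro (h | h | h)
      · exact ⟨Or.inl h, h ▸ hs.xP⟩
      · exact ⟨Or.inr (Or.inl h), h ▸ hs.yP⟩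
      · exact ⟨Or.inr (Or.inr (Or.inr h)), fun h' => disjoint_left.1 hs.dis h' h⟩
  -- removing one pole
  have key : ∀ z w : V, s(z, w) = s(x, y) → z ∈ Y \ P → ¬ Disc ((Y \ P).erase z) G := by
    intro z w hzw hz hdisc
    refine hT'.conn' z hz ?_
    obtain ⟨C, D, hC, hD, hCD, hun, hno⟩ := hdisc
    refine ⟨C, D, hC, hD, hCD, hun, fun a ha b hb hab => ?_⟩
    unfold red at hab
    rw [mem_insert] at hab
    have haz : a ≠ z := fun h => by
      have : a ∈ (Y \ P).erase z := by rw [← hun]; exact mem_union_left _ ha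
      exact ne_of_mem_erase this h
    have hbz : b ≠ z := fun h => by
      have : b ∈ (Y \ P).erase z := by rw [← hun]; exact mem_union_right _ hb
      exact ne_of_mem_erase this h
    rcases hab with h | h
    · rw [← hzw, Sym2.eq_iff] at h
      rcases h with h | h
      · exact haz h.1
      · exact hbz h.2
    · exact hno a ha b hb (mem_inter.1 h).1
  have e1 : (Y \ P).erase x = insert y Q := by
    ext v
    rw [mem_erase, hYP, mem_insert]
    constructor
    · rintro ⟨h, h1 | h1⟩
      · exact absurd h1 h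
      · exact h1
    · intro h
      refine ⟨fun h1 => ?_, Or.inr h⟩
      rcases h with h | h
      · exact hs.ne (h1.symm.trans h)
      · exact hs.xQ (h1 ▸ h)
  have e2 : (Y \ P).erase y = insert x Q := by
    ext v
    rw [mem_erase, hYP, mem_insert]
    constructor
    · rintro ⟨h, h1 | h1 | h1⟩
      · exact Or.inl h1
      · exact absurd h1 h
      · exact Or.inr h1
    · intro h
      refine ⟨fun h1 => ?_, h.imp_right Or.inr⟩
      rcases h with h | h
      · exact hs.ne (h.symm.trans h1)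
      · exact hs.yQ (h1 ▸ h)
  have h1 := key x y rfl ((hYP x).2 (Or.inl rfl))
  have h2 := key y x (by rw [Sym2.eq_swap]) ((hYP y).2 (Or.inr (Or.inl rfl)))
  rw [e1] at h1
  rw [e2] at h2
  obtain ⟨q, hq⟩ := hs.Q0
  obtain ⟨k, hk, hxk⟩ : ∃ k ∈ Q, s(k, x) ∈ G := by
    by_contra hcon
    push Not at hcon
    refine h2 ⟨Q, {x}, ⟨q, hq⟩, singleton_nonempty x, ?_, ?_, ?_⟩
    · rw [disjoint_singleton_right]
      exact hs.xQ
    · rw [union_comm, ← insert_eq]
    · intro a ha b hb hab
      rw [mem_singleton] at hb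
      rw [hb] at hab
      exact hcon a ha hab
  exact H63B.conn_insert h1 (mem_insert_of_mem hk) hxk

/-- The reduction. -/
theorem pi_redn {V : Type} [Fintype V] [DecidableEq V] {G : Finset (Sym2 V)} {Y A P Q : Finset V} {x y : V}
    (hT : TCY G Y) (hs : LD.Sep G Y x y P Q) (hA : A ⊆ Y \ Q) (h : Pi (red G Y x y Q) A) : Pi G A := by
  have hAY : A ⊆ Y := fun v hv => (mem_sdiff.1 (hA hv)).1
  by_cases h2 : A.card ≤ 2
  · exact pi_two hT hAY h2
  obtain ⟨f, hw, hdeg, hsep⟩ := h
  obtain ⟨p, pw, pU, px, py, pd, pc⟩ := path_wt (G := G) (U := insert x (insert y Q)) (b := x) (u := y)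
    (mem_insert_self _ _) (mem_insert_of_mem (mem_insert_self _ _)) hs.ne (conn_side hT hs)
  obtain ⟨w, hwd⟩ : ∃ w : ℝ, w = min (f x y) 1 := ⟨_, rfl⟩
  have hw0 : 0 ≤ w := by rw [hwd]; exact le_min (hw.nn x y) zero_le_one
  have hw1 : w ≤ 1 := by rw [hwd]; exact min_le_right _ _
  have hwf : w ≤ f x y := by rw [hwd]; exact min_le_left _ _
  -- the support of `f`
  have hsup : ∀ u v, f u v ≠ 0 → s(u, v) = s(x, y) ∨ (s(u, v) ∈ G ∧ u ∉ Q ∧ v ∉ Q) := by
    intro u v huv
    by_contra hcon
    push Not at hcon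
    refine huv (hw.supp u v fun h => ?_)
    unfold red at h
    rw [mem_insert, mem_inter, mk_mem_sym2_iff, mem_sdiff, mem_sdiff] at h
    rcases h with h | h
    · exact hcon.1 h
    · exact h.2.2.2 (hcon.2 h.1 h.2.1.2)
  have hnotQ : ∀ u v, f u v ≠ 0 → u ∉ Q := by
    intro u v huv
    rcases hsup u v huv with h | h
    · rw [Sym2.eq_iff] at h
      rcases h with h | h
      · rw [h.1]; exact hs.xQ
      · rw [h.1]; exact hs.yQ
    · exact h.2.1
  refine ⟨fun u v => del f x y u v + w * p u v, ⟨?_, ?_, ?_⟩, ?_, ?_⟩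
  · intro u v
    have : del f x y u v = del f x y v u := by
      unfold del
      rw [Sym2.eq_swap (a := u), hw.symm u v]
    show del f x y u v + w * p u v = del f x y v u + w * p v u
    rw [this, pw.symm u v]
  · intro u v
    have h1 : 0 ≤ del f x y u v := by
      unfold del
      split
      · exact le_refl _
      · exact hw.nn u v
    have h2 := mul_nonneg hw0 (pw.nn u v)
    show 0 ≤ del f x y u v + w * p u v
    linarith
  · intro u v huv
    have h1 : del f x y u v = 0 := by
      unfold del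
      split
      · rfl
      · next h =>
        by_contra h1
        rcases hsup u v h1 with h2 | h2
        · exact h h2
        · exact huv h2.1
    show del f x y u v + w * p u v = 0
    rw [h1, pw.supp u v huv]
    ring
  · intro v
    rw [deg_add]
    by_cases hvx : v = x
    · subst hvx
      rw [deg_del hs.ne]
      have h1 := hdeg v
      have h3 : w * deg p v ≤ w * 1 := mul_le_mul_of_nonneg_left px hw0
      linarith
    by_cases hvy : v = y
    · subst hvy
      rw [deg_del' hs.ne]
      have h1 := hdeg v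
      have h3 : w * deg p v ≤ w * 1 := mul_le_mul_of_nonneg_left py hw0
      have h4 := hw.symm v x
      linarith
    by_cases hvQ : v ∈ Q
    · have h1 : deg (del f x y) v ≤ 0 := by
        refine le_trans (deg_del_le hw.nn x y v) (le_of_eq ?_)
        refine sum_eq_zero fun u _ => ?_
        by_contra h1
        exact hnotQ v u h1 hvQ
      have h3 : w * deg p v ≤ 1 * 2 := by
        have h4 : 0 ≤ deg p v := sum_nonneg fun u _ => pw.nn v u
        exact mul_le_mul hw1 (pd v) h4 zero_le_one
      linarith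
    · have h1 : deg p v = 0 := by
        refine sum_eq_zero fun u _ => pU v u ?_
        simp only [mem_insert, not_or]
        exact ⟨hvx, hvy, hvQ⟩
      have h3 := deg_del_le hw.nn x y v
      have h4 := hdeg v
      rw [h1]
      linarith
  · intro S hS
    rw [cut_add]
    have hp0 : 0 ≤ cut p S := cut_nonneg pw S
    have hwp := mul_nonneg hw0 hp0
    -- one direction
    have main : ∀ S : Finset V, H31S.Sep A S → x ∈ S → y ∉ S → 2 ≤ cut (del f x y) S + w * cut p S := by
      intro S hS hxS hyS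
      have h1 := cut_del_sep (x := f) hxS hyS
      have h3 := mul_le_mul_of_nonneg_left (pc S hxS hyS) hw0
      have h4 := hsep S hS
      by_cases h5 : f x y ≤ 1
      · have h6 : w = f x y := by rw [hwd, min_eq_left h5]
        linarith
      · have h6 : w = 1 := by rw [hwd, min_eq_right (by linarith)]
        have hSA := hS
        obtain ⟨⟨a, ha, haS⟩, ⟨b, hb, hbS⟩⟩ := hS
        by_cases hyA : y ∈ A
        · by_cases hxA : x ∈ A
          · exfalso
            obtain ⟨t, ht, htx⟩ : ∃ t ∈ A, t ∉ ({x, y} : Finset V) := by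
              by_contra hcon
              push Not at hcon
              exact h2 ((card_le_card hcon).trans card_le_two)
            have h7 := hsep {x, y} ⟨⟨x, hxA, by simp⟩, ⟨t, ht, htx⟩⟩
            have h8 := cut_insert hw (S := {y}) (s := y) (t := x) (by simpa using hs.ne) (mem_singleton_self y)
            have h9 : cut f {y} ≤ deg f y := by
              unfold cut deg
              rw [sum_singleton]
              exact sum_le_sum_of_subset_of_nonneg (subset_univ _) fun u _ _ => hw.nn y u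
            have h10 := hdeg x
            have h11 := hdeg y
            linarith
          · have h7 := cut_insert hw (S := Sᶜ) (s := y) (t := x) (by simpa using hxS) (mem_compl.2 hyS)
            have h8 := hsep (insert x Sᶜ) ⟨⟨b, hb, mem_insert_of_mem (mem_compl.2 hbS)⟩, ⟨a, ha, by
              rw [mem_insert, mem_compl, not_or, not_not]
              exact ⟨fun h => hxA (h ▸ ha), haS⟩⟩⟩
            rw [cut_compl hw] at h7
            have h9 := hdeg x
            linarith
        · have h7 := cut_insert hw (S := S) (s := x) (t := y) hyS hxS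
          have h8 := hsep (insert y S) ⟨⟨a, ha, mem_insert_of_mem haS⟩, ⟨b, hb, by
            rw [mem_insert, not_or]
            exact ⟨fun h => hyA (h ▸ hb), hbS⟩⟩⟩
          have h9 := hdeg y
          have h10 := hw.symm y x
          linarith
    by_cases hxS : x ∈ S
    · by_cases hyS : y ∈ S
      · rw [cut_del_same ⟨fun _ => hyS, fun _ => hxS⟩]
        have := hsep S hS
        linarith
      · exact main S hS hxS hyS
    · by_cases hyS : y ∈ S
      · have hdw : Wt (insert s(x, y) G ∪ red G Y x y Q) (del f x y) := by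
          refine ⟨fun u v => ?_, fun u v => ?_, fun u v huv => ?_⟩
          · unfold del
            rw [Sym2.eq_swap (a := u), hw.symm u v]
          · unfold del
            split
            · exact le_refl _
            · exact hw.nn u v
          · unfold del
            split
            · rfl
            · exact hw.supp u v fun h => huv (mem_union_right _ h)
        have h1 := main Sᶜ ⟨by
          obtain ⟨-, ⟨b, hb, hbS⟩⟩ := hS
          exact ⟨b, hb, mem_compl.2 hbS⟩, by
          obtain ⟨⟨a, ha, haS⟩, -⟩ := hS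
          exact ⟨a, ha, by simpa using haS⟩⟩ (mem_compl.2 hxS) (by simpa using hyS)
        rw [cut_compl hdw, cut_compl pw] at h1
        exact h1
      · rw [cut_del_same ⟨fun h => absurd h hxS, fun h => absurd h hyS⟩]
        have := hsep S hS
        linarith

end H8Y
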