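import Pool.Agent.Lib.H8Y.Cov
import Pool.Agent.Lib.H31S.H
import Pool.Agent.Lib.H36V.FunK

/-!
# H8Y, file Inst: the subtour predicate is a covering predicate (MP_33911d)
-/

set_option autoImplicit false
set_option linter.unusedSectionVars false

namespace H8Y

open Finset H98M LD H85TF H31S

/-- THE INSTANCE. -/
theorem covP {V : Type} [Fintype V] [DecidableEq V] :
    H36V.CovP (H31S.Pi : Finset (Sym2 V) → Finset V → Prop) where
  sub := pi_sub
  mono := pi_mono
  two := pi_two
  cyc := pi_cyc
  redn := pi_redn
  exch := fun hT hb hd hbU hdU hU hin =>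
    H31S.exchange (fun v hv => hT.loop _ hv (by simp)) hb hd hbU hdU hU hin

end H8Y
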